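import Pool.Agent.C4U.Stmts

/-! Row DEG of squad C4U. -/

set_option autoImplicit false

namespace Pool.Agent.C4U.H3

open Pool.Agent.C4U

theorem deg : DegStmt := by
  intro a b h1 h2 k m i hm
  have hinj : ∀ e e', (a e = i ∨ b e = i) → (a e' = i ∨ b e' = i) →
      (if a e = i then b e else a e) = (if a e' = i then b e' else a e') → e = e' := by
    intro e e' he he' heq
    have e1 := (h1 e).1
    have e2 := (h1 e).2
    have f1 := (h1 e').1
    have f2 := (h1 e').2
    by_cases ha : a e = i
    · by_cases ha' : a e' = i
      · rw [if_pos ha, if_pos ha'] at heq
        rw [← e2, ← f2, heq, ha, ha']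
      · rw [if_pos ha, if_neg ha'] at heq
        have hb' : b e' = i := by
          rcases he' with h | h
          · exact absurd h ha'
          · exact h
        omega
    · have hb : b e = i := by
        rcases he with h | h
        · exact absurd h ha
        · exact h
      by_cases ha' : a e' = i
      · rw [if_neg ha, if_pos ha'] at heq
        omega
      · rw [if_neg ha, if_neg ha'] at heq
        have hb' : b e' = i := by
          rcases he' with h | h
          · exact absurd h ha'
          · exact h
        rw [← e2, ← f2, heq, hb, hb']
  have hmaps : ∀ e ∈ (Finset.range m).filter (fun e => a e = i ∨ b e = i),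
      (if a e = i then b e else a e) ∈ Finset.range k := by
    intro e he
    rw [Finset.mem_filter, Finset.mem_range] at he
    have hb : b e < k := h2 k e (lt_of_lt_of_le he.1 hm)
    have e1 := (h1 e).1
    rw [Finset.mem_range]
    by_cases ha : a e = i
    · rw [if_pos ha]; exact hb
    · rw [if_neg ha]; omega
  have hcard := Finset.card_le_card_of_injOn
    (s := (Finset.range m).filter (fun e => a e = i ∨ b e = i)) (t := Finset.range k)
    (fun e => if a e = i then b e else a e) hmaps (by
      intro e he e' he' heq
      have he := Finset.mem_coe.1 he
      have he' := Finset.mem_coe.1 he'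
      rw [Finset.mem_filter] at he he'
      exact hinj e e' he.2 he'.2 heq)
  rwa [Finset.card_range] at hcard

end Pool.Agent.C4U.H3
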